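import Pool.Agent.W878.VC.Code

set_option autoImplicit false

/-! Codings by binary relations that depend on the parameters. -/

namespace Pool.Agent.K1H62.PG

open Set MeasureTheory
open Pool.Agent.H533R2.VO (RS)
open Pool.Agent.H533R2.VS (VCu US UIso UDich)
open Pool.Agent.W878.VC

theorem code2 {a : ℕ → ℕ} {m k : ℕ} {W : RS a → Prop} {V : (Fin m → ℕ → ℕ → Bool) → Prop}
    (hV : VS V) (R : RS a × (Fin k → ℕ) → (Fin m → ℕ → ℕ → Bool)) (hR : Measurable R)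
    (hRe : ∀ (σ : Equiv.Perm ℕ) x p, R (aR σ x, ⇑σ ∘ p) = aF σ (R (x, p)))
    (P : RS a → (Fin k → ℕ) → Prop)
    (hPm : MeasurableSet {q : RS a × (Fin k → ℕ) | P q.1 q.2})
    (hPi : ∀ x p (σ : Equiv.Perm ℕ), P x p → P (aR σ x) (⇑σ ∘ p)) (hex : ∀ x, W x → ∃ p, P x p)
    (hinj : ∀ x y p, W x → W y → P x p → P y p → R (x, p) = R (y, p) → x = y)
    (hWV : ∀ x p, W x → P x p → V (R (x, p))) : VCu W := by
  intro B hB hBi hBW
  have hBa : ∀ x ∈ B, ∀ σ, aU σ x ∈ B := fun x hx σ =>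
    (hBi x _ ((uiso_iff _ _).2 ⟨σ, rfl⟩)).1 hx
  let D : Set (US a × (Fin k → ℕ)) := {q | q.1 ∈ B ∧ P q.1.1 q.2}
  let c : US a × (Fin k → ℕ) → SS m := fun q => (R (q.1.1, q.2), mk q.2 q.1.2)
  have h0 : Measurable fun q : US a × (Fin k → ℕ) => (q.1.1, q.2) :=
    (measurable_fst.comp measurable_fst).prodMk measurable_snd
  have hD : MeasurableSet D := by
    refine MeasurableSet.inter (measurable_fst hB) ?_
    exact h0 hPm
  have hcm : Measurable c := by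
    refine Measurable.prodMk (hR.comp h0) ?_
    have h2 : Continuous fun q : US a × (Fin k → ℕ) => mk q.2 q.1.2 :=
      mk_cont.comp ((continuous_snd.comp continuous_fst).prodMk continuous_snd)
    exact h2.measurable
  have hce : ∀ (σ : Equiv.Perm ℕ) x p, c (aU σ x, ⇑σ ∘ p) = aS σ (c (x, p)) := by
    intro σ x p
    exact Prod.ext (hRe σ x.1 p) (mk_act σ p x.2)
  have hi : InjOn c D := by
    rintro ⟨x, p⟩ ⟨hx1, hx2⟩ ⟨y, q⟩ ⟨hy1, hy2⟩ h
    obtain ⟨h1, h2⟩ := mk_inj (congrArg Prod.snd h)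
    have h3 : R (x.1, p) = R (y.1, q) := congrArg Prod.fst h
    simp only at h1 hx2 hy2
    subst h1
    have h4 := hinj x.1 y.1 p (hBW x hx1) (hBW y hy1) hx2 hy2 h3
    have h5 : x = y := Prod.ext h4 h2
    rw [h5]
  have hDi : ∀ x p, (x, p) ∈ D → ∀ σ : Equiv.Perm ℕ, (aU σ x, ⇑σ ∘ p) ∈ D := by
    rintro x p ⟨h1, h2⟩ σ
    exact ⟨hBa x h1 σ, hPi x.1 p σ h2⟩
  have hP0 : PolishSpace (US a × (Fin k → ℕ)) := inferInstance
  have key := par (Y := US a) (Z := SS m) k (act_S m) (ana_U a) D hD hDi c hcm hce hi ?_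
  · have e : {x | ∃ p : Fin k → ℕ, (x, p) ∈ D} = B := by
      ext x
      constructor
      · rintro ⟨p, h1, -⟩
        exact h1
      · intro hx
        obtain ⟨p, hp⟩ := hex x.1 (hBW x hx)
        exact ⟨p, hx, hp⟩
    rw [e] at key
    exact (dicho_U B).1 key
  · have hst : StandardBorelSpace (SS m) := inferInstance
    have hcs : MeasurableSpace.CountablySeparated (SS m) := cs_of (SS m)
    refine hV _ (hD.image_of_measurable_injOn hcm hi) ?_ ?_
    · rintro _ ⟨⟨x, p⟩, hx, rfl⟩ σ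
      exact ⟨(aU σ x, ⇑σ ∘ p), hDi x p hx σ, hce σ x p⟩
    · rintro _ ⟨⟨x, p⟩, ⟨hx, hp⟩, rfl⟩
      exact hWV x.1 p (hBW x hx) hp

end Pool.Agent.K1H62.PG
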