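import Pool.Agent.W878.VC.Kel

set_option autoImplicit false

/-! Project PG (MP_4d1b73_lc): permutation graphs. Definitions, statements. -/

namespace Pool.Agent.K1H62.PG

open Pool.Agent.W878.VC (Stp Fc Mdl Prm Gr SPO SLO Cmp)

/-- `A` is the inversion graph of the linear orders `l`, `k`. -/
def Inv (A l k : ℕ → ℕ → Prop) : Prop := ∀ u v, A u v ↔ (l u v ∧ k v u) ∨ (l v u ∧ k u v)

/-- permutation graphs -/
def PGr (A : ℕ → ℕ → Prop) : Prop := ∃ l k : ℕ → ℕ → Prop, SLO l ∧ SLO k ∧ Inv A l k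

/-- the complement -/
def Co (A : ℕ → ℕ → Prop) (u v : ℕ) : Prop := u ≠ v ∧ ¬ A u v

/-- the parameters: an edge and a non-edge -/
def Par (A : ℕ → ℕ → Prop) (p : Fin 4 → ℕ) : Prop := A (p 0) (p 1) ∧ Co A (p 2) (p 3)

/-- the first order defined from `A` and the parameters -/
def lo (A : ℕ → ℕ → Prop) (p : Fin 4 → ℕ) (u v : ℕ) : Prop :=
  (A u v ∧ Fc A (p 0, p 1) (u, v)) ∨ (Co A u v ∧ Fc (Co A) (p 2, p 3) (u, v))

/-- the second order -/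
def ko (A : ℕ → ℕ → Prop) (p : Fin 4 → ℕ) (u v : ℕ) : Prop :=
  (A u v ∧ Fc A (p 0, p 1) (v, u)) ∨ (Co A u v ∧ Fc (Co A) (p 2, p 3) (u, v))

/-- no `s` pairwise adjacent points -/
def NoCl (A : ℕ → ℕ → Prop) (s : ℕ) : Prop :=
  ¬ ∃ a : Fin s → ℕ, ∀ i j, i < j → A (a i) (a j)

/-- **(a)** For prime permutation graphs the two orders are linear with inversion graph `A`. -/
def S_A : Prop := ∀ (A : ℕ → ℕ → Prop) (p : Fin 4 → ℕ), PGr A → Prm A → Par A p →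
  SLO (lo A p) ∧ SLO (ko A p) ∧ Inv A (lo A p) (ko A p)

/-- **(b)** Equivariance. -/
def S_B : Prop := ∀ (A B : ℕ → ℕ → Prop) (σ : Equiv.Perm ℕ) (p : Fin 4 → ℕ),
  (∀ u v, B (σ u) (σ v) ↔ A u v) →
  (∀ u v, lo B (⇑σ ∘ p) (σ u) (σ v) ↔ lo A p u v) ∧
  (∀ u v, ko B (⇑σ ∘ p) (σ u) (σ v) ↔ ko A p u v) ∧ (Par B (⇑σ ∘ p) ↔ Par A p)

/-- **(c)** Measurability. -/
def S_C : Prop :=
  (∀ u v, MeasurableSet {q : (ℕ → ℕ → Bool) × (Fin 4 → ℕ) |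
    lo (fun u v => q.1 u v = true) q.2 u v}) ∧
  (∀ u v, MeasurableSet {q : (ℕ → ℕ → Bool) × (Fin 4 → ℕ) |
    ko (fun u v => q.1 u v = true) q.2 u v}) ∧
  MeasurableSet {q : (ℕ → ℕ → Bool) × (Fin 4 → ℕ) | Par (fun u v => q.1 u v = true) q.2}

/-- **(d)** Cliques and independent sets in terms of the orders, and parameters exist. -/
def S_D : Prop :=
  (∀ (A l k : ℕ → ℕ → Prop), SLO l → SLO k → Inv A l k → ∀ s,
    (NoCl A s → ¬ ∃ a : Fin s → ℕ, ∀ i j, i < j → l (a i) (a j) ∧ k (a j) (a i)) ∧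
    (NoCl (Co A) s → ¬ ∃ a : Fin s → ℕ, ∀ i j, i < j → l (a i) (a j) ∧ k (a i) (a j))) ∧
  ∀ A : ℕ → ℕ → Prop, PGr A → Prm A → ∃ p, Par A p

end Pool.Agent.K1H62.PG
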