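import Pool.Agent.K1H62.PG.Code2
import Pool.Agent.K1H62.PG.Stm
import Pool.Agent.R617.VT.Cmp

set_option autoImplicit false

/-! The class of prime permutation graphs; general graphs. -/

namespace Pool.Agent.K1H62.PG

open Set MeasureTheory
open Pool.Agent.H533R2.VO (RS)
open Pool.Agent.H533R2.VS (VCu US UIso UDich)
open Pool.Agent.W878.VC
open Pool.Agent.R617.VT.Cmp (Bl rs_one rs_ge vs_ord Ord)

/-- pairs of linear orders that avoid a monotone permutation -/
def V2' (r : Fin 2 → ℕ → ℕ → Bool) : Prop :=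
  SLO (fun u v => r 0 u v = true) ∧ SLO (fun u v => r 1 u v = true) ∧
  ∃ s, (¬ ∃ a : Fin s → ℕ, ∀ i j, i < j → r 0 (a i) (a j) = true ∧ r 1 (a i) (a j) = true) ∨
    (¬ ∃ a : Fin s → ℕ, ∀ i j, i < j → r 0 (a i) (a j) = true ∧ r 1 (a j) (a i) = true)

/-- prime permutation graphs with bounded cliques or bounded independent sets -/
def Nc (A : ℕ → ℕ → Prop) : Prop := PGr A ∧ ∃ s, NoCl A s ∨ NoCl (Co A) s

/-- as structures -/
def W (x : RS a2) : Prop := (∀ i, i ≠ 0 → ∀ u v, ¬ rl x i u v) ∧ Prm (rl x 0) ∧ Nc (rl x 0)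

open Classical in
/-- the two orders -/
noncomputable def RR (q : RS a2 × (Fin 4 → ℕ)) : Fin 2 → ℕ → ℕ → Bool := fun i u v =>
  if i = 0 then decide (lo (rl q.1 0) q.2 u v) else decide (ko (rl q.1 0) q.2 u v)

theorem RR_zero (q : RS a2 × (Fin 4 → ℕ)) (u v : ℕ) :
    RR q 0 u v = true ↔ lo (rl q.1 0) q.2 u v := by
  classical
  unfold RR
  rw [if_pos rfl, decide_eq_true_iff]

theorem RR_one (q : RS a2 × (Fin 4 → ℕ)) (u v : ℕ) :
    RR q 1 u v = true ↔ ko (rl q.1 0) q.2 u v := by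
  classical
  unfold RR
  rw [if_neg (by decide), decide_eq_true_iff]

theorem f2 : ∀ i : Fin 2, i = 0 ∨ i = 1 := by decide

/-- the projection to a binary relation -/
def pr (q : RS a2 × (Fin 4 → ℕ)) : (ℕ → ℕ → Bool) × (Fin 4 → ℕ) :=
  (fun u v => q.1 0 ![u, v], q.2)

theorem pr_meas : Measurable pr := by
  have h1 : Continuous pr := by
    refine Continuous.prodMk ?_ continuous_snd
    exact continuous_pi fun u => continuous_pi fun v =>
      (continuous_apply _).comp ((continuous_apply 0).comp continuous_fst)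
  exact h1.measurable

theorem RR_meas (hC : S_C) : Measurable RR := by
  refine measurable_pi_iff.2 fun i => measurable_pi_iff.2 fun u => measurable_pi_iff.2 fun v => ?_
  have key : ∀ (Q : RS a2 × (Fin 4 → ℕ) → Prop), MeasurableSet {q | Q q} →
      ∀ F : RS a2 × (Fin 4 → ℕ) → Bool, (∀ q, F q = true ↔ Q q) → Measurable F := by
    intro Q hQ F hF
    refine measurable_to_bool ?_
    have e : F ⁻¹' {true} = {q | Q q} := by
      ext q
      exact hF q
    rw [e]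
    exact hQ
  rcases f2 i with rfl | rfl
  · exact key (fun q => lo (rl q.1 0) q.2 u v) (pr_meas (hC.1 u v)) _ fun q => RR_zero q u v
  · exact key (fun q => ko (rl q.1 0) q.2 u v) (pr_meas (hC.2.1 u v)) _ fun q => RR_one q u v

theorem RR_act (hB : S_B) (σ : Equiv.Perm ℕ) (x : RS a2) (p : Fin 4 → ℕ) :
    RR (aR σ x, ⇑σ ∘ p) = aF σ (RR (x, p)) := by
  obtain ⟨h1, h2, -⟩ := hB (rl x 0) (rl (aR σ x) 0) σ p fun u v => rl_act σ x 0 u v
  have e1 : ∀ u, σ (σ⁻¹ u) = u := fun u => σ.apply_symm_apply u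
  funext i u v
  rw [Bool.eq_iff_iff]
  rcases f2 i with rfl | rfl
  · show _ ↔ RR (x, p) 0 (σ⁻¹ u) (σ⁻¹ v) = true
    rw [RR_zero, RR_zero]
    have h3 := h1 (σ⁻¹ u) (σ⁻¹ v)
    rw [e1, e1] at h3
    exact h3
  · show _ ↔ RR (x, p) 1 (σ⁻¹ u) (σ⁻¹ v) = true
    rw [RR_one, RR_one]
    have h3 := h2 (σ⁻¹ u) (σ⁻¹ v)
    rw [e1, e1] at h3
    exact h3

theorem slo_congr {l k : ℕ → ℕ → Prop} (h : ∀ u v, l u v ↔ k u v) (hl : SLO k) : SLO l := by
  have e : l = k := by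
    funext u v
    exact propext (h u v)
  rw [e]
  exact hl

theorem vcu_W (hA : S_A) (hB : S_B) (hC : S_C) (hD : S_D) (hV : VS (m := 2) V2') : VCu W := by
  refine code2 (k := 4) hV RR (RR_meas hC) (RR_act hB) (fun x p => Par (rl x 0) p)
    (pr_meas hC.2.2) ?_ ?_ ?_ ?_
  · intro x p σ h
    exact (hB (rl x 0) (rl (aR σ x) 0) σ p fun u v => rl_act σ x 0 u v).2.2.2 h
  · intro x hx
    exact hD.2 (rl x 0) hx.2.2.1 hx.2.1
  · intro x y p hx hy h1 h2 h
    obtain ⟨-, -, k1⟩ := hA _ p hx.2.2.1 hx.2.1 h1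
    obtain ⟨-, -, k2⟩ := hA _ p hy.2.2.1 hy.2.1 h2
    have e1 : ∀ u v, lo (rl x 0) p u v ↔ lo (rl y 0) p u v := by
      intro u v
      rw [← RR_zero (x, p), ← RR_zero (y, p), h]
    have e2 : ∀ u v, ko (rl x 0) p u v ↔ ko (rl y 0) p u v := by
      intro u v
      rw [← RR_one (x, p), ← RR_one (y, p), h]
    refine rl_ext fun i u v => ?_
    by_cases hi : i = 0
    · subst hi
      rw [k1 u v, k2 u v, e1, e1, e2, e2]
    · exact ⟨fun h => absurd h (hx.1 i hi u v), fun h => absurd h (hy.1 i hi u v)⟩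
  · intro x p hx h1
    obtain ⟨k1, k2, k3⟩ := hA _ p hx.2.2.1 hx.2.1 h1
    refine ⟨slo_congr (RR_zero (x, p)) k1, slo_congr (RR_one (x, p)) k2, ?_⟩
    obtain ⟨s, hs⟩ := hx.2.2.2
    refine ⟨s, ?_⟩
    rcases hs with hs | hs
    · right
      rintro ⟨a, ha⟩
      refine (hD.1 _ _ _ k1 k2 k3 s).1 hs ⟨a, fun i j hij => ?_⟩
      obtain ⟨l1, l2⟩ := ha i j hij
      exact ⟨(RR_zero _ _ _).1 l1, (RR_one _ _ _).1 l2⟩
    · left
      rintro ⟨a, ha⟩
      refine (hD.1 _ _ _ k1 k2 k3 s).2 hs ⟨a, fun i j hij => ?_⟩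
      obtain ⟨l1, l2⟩ := ha i j hij
      exact ⟨(RR_zero _ _ _).1 l1, (RR_one _ _ _).1 l2⟩

/-- graphs all of whose infinite prime induced subgraphs are permutation graphs with bounded
cliques or bounded independent sets -/
structure GG (A : ℕ → ℕ → Prop) : Prop where
  gr : Gr A
  prm : ∀ e : ℕ → ℕ, Function.Injective e → Prm (fun u v => A (e u) (e v)) →
    Nc fun u v => A (e u) (e v)

theorem vs_GG (hA : S_A) (hB : S_B) (hC : S_C) (hD : S_D) (hV : VS (m := 2) V2') :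
    VS (Bl GG) := by
  refine vs_prime (vcu_W hA hB hC hD hV) ?_ ?_
  · rintro x h i u hu
    rcases Nat.eq_zero_or_pos i with rfl | hi
    · exact h.gr.irr u ((rs_one _ _ _).1 hu)
    · exact rs_ge x.1 hi _ _ hu
  · intro x h e he hp y hy
    have hy0 : rl y 0 = fun u v => x.1 0 (e u) (e v) = true := by
      funext u v
      exact propext ((hy 0 u v).trans (rs_one _ _ _))
    have hP : Prm (fun u v => x.1 0 (e u) (e v) = true) := by
      intro X hX
      refine hp X fun i => ?_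
      rcases Nat.eq_zero_or_pos i with rfl | hi
      · have e1 : (fun u v => rs x.1 0 (e u) (e v)) = fun u v => x.1 0 (e u) (e v) = true := by
          funext u v
          exact propext (rs_one _ _ _)
        rw [e1]
        exact hX
      · exact R617.VT.Cmp.mdl_triv (fun u v => rs_ge x.1 hi _ _) X
    refine ⟨fun i hi u v => ?_, ?_, ?_⟩
    · rw [hy]
      exact rs_ge x.1 (Nat.pos_of_ne_zero hi) _ _
    · rw [hy0]
      exact hP
    · rw [hy0]
      exact h.prm e he hP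

/-- posets all of whose infinite prime suborders are intersections of two linear orders and have
bounded chains or bounded antichains -/
structure PP (r : ℕ → ℕ → Prop) : Prop where
  spo : SPO r
  prm : ∀ e : ℕ → ℕ, Function.Injective e → Prm (fun u v => r (e u) (e v)) →
    (∃ l k, SLO l ∧ SLO k ∧ ∀ u v, r (e u) (e v) ↔ l u v ∧ k u v) ∧
    ∃ s, (¬ ∃ a : Fin s → ℕ, ∀ i j, i < j → r (e (a i)) (e (a j)) ∨ r (e (a j)) (e (a i))) ∨
      (¬ ∃ a : Fin s → ℕ, ∀ i j, i < j → a i ≠ a j ∧ ¬ r (e (a i)) (e (a j)) ∧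
        ¬ r (e (a j)) (e (a i)))

theorem inc_inv {r l k : ℕ → ℕ → Prop} (hl : SLO l) (hk : SLO k)
    (h : ∀ u v, r u v ↔ l u v ∧ k u v) :
    Inv (fun u v => u ≠ v ∧ ¬ r u v ∧ ¬ r v u) l k := by
  intro u v
  constructor
  · rintro ⟨h1, h2, h3⟩
    rw [h] at h2 h3
    rcases hl.total u v h1 with h4 | h4
    · rcases hk.total u v h1 with h5 | h5
      · exact absurd ⟨h4, h5⟩ h2
      · exact Or.inl ⟨h4, h5⟩
    · rcases hk.total u v h1 with h5 | h5
      · exact Or.inr ⟨h4, h5⟩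
      · exact absurd ⟨h4, h5⟩ h3
  · rintro (⟨h1, h2⟩ | ⟨h1, h2⟩)
    · refine ⟨fun e => hl.irr u (by rw [← e] at h1; exact h1), fun h3 => ?_, fun h3 => ?_⟩
      · exact hk.asymm h2 ((h _ _).1 h3).2
      · exact hl.asymm h1 ((h _ _).1 h3).1
    · refine ⟨fun e => hl.irr u (by rw [← e] at h1; exact h1), fun h3 => ?_, fun h3 => ?_⟩
      · exact hl.asymm h1 ((h _ _).1 h3).1
      · exact hk.asymm h2 ((h _ _).1 h3).2

theorem slo_comap {l : ℕ → ℕ → Prop} (hl : SLO l) {e : ℕ → ℕ} (he : Function.Injective e) :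
    SLO (fun u v => l (e u) (e v)) :=
  ⟨⟨fun u => hl.irr (e u), fun u v w => hl.trans (e u) (e v) (e w)⟩,
    fun u v h => hl.total (e u) (e v) (he.ne h)⟩

theorem vs_PP (h : VS (Bl GG)) : VS (m := 1) (fun r => PP fun u v => r 0 u v = true) := by
  have h1 := vs_ord h
  intro B k1 k2 k3
  refine h1 B k1 k2 fun x hx => ⟨(k3 x hx).spo, fun e he hp => ?_⟩
  obtain ⟨⟨l, k, hl, hk, hlk⟩, s, hs⟩ := (k3 x hx).prm e he hp
  have hinv := inc_inv hl hk hlk
  refine ⟨⟨fun u v h => ⟨h.1.symm, h.2.2, h.2.1⟩, fun u h => h.1 rfl⟩, fun e' he' _ => ?_⟩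
  refine ⟨⟨fun u v => l (e' u) (e' v), fun u v => k (e' u) (e' v), slo_comap hl he',
    slo_comap hk he', fun u v => hinv (e' u) (e' v)⟩, s, ?_⟩
  rcases hs with hs | hs
  · right
    rintro ⟨a, ha⟩
    refine hs ⟨fun i => e' (a i), fun i j hij => ?_⟩
    obtain ⟨l1, l2⟩ := ha i j hij
    by_contra hc
    rw [not_or] at hc
    exact l2 ⟨he'.ne l1, hc.1, hc.2⟩
  · left
    rintro ⟨a, ha⟩
    exact hs ⟨fun i => e' (a i), fun i j hij => ha i j hij⟩

end Pool.Agent.K1H62.PG
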